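import Pool.Agent.H97.MC.TH6
import Pool.Agent.H18.MC.AV0
import Pool.Agent.H18.MC.AV1
import Pool.Agent.H33.MC.AV2
import Pool.Agent.H56.MC.BD1
import Pool.Agent.H11.MC.BD2
import Pool.Agent.H4.MXC.BDY
import Pool.Agent.H56.MC.BNS
import Pool.Agent.H74.MC.CPY
import Pool.Agent.H91.MC.DIG
import Pool.Agent.H35.MC.ENC
import Pool.Agent.H4.MXC.ENT
import Pool.Agent.H51.MC.EST
import Pool.Agent.H74.MC.EVL
import Pool.Agent.H14.MC.FR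
import Pool.Agent.H60.MC.GOD
import Pool.Agent.H33.MC.GSL
import Pool.Agent.H34.MC.HLF
import Pool.Agent.H65.MC.INC
import Pool.Agent.H11.MC.LNK
import Pool.Agent.H74.MC.INR
import Pool.Agent.H34.MC.MAR
import Pool.Agent.H2.MC2.MCB
import Pool.Agent.H11.MC.MUL
import Pool.Agent.H16.MC.MXW
import Pool.Agent.H4.MXC.ORT
import Pool.Agent.H4.MXC.PRG
import Pool.Agent.H19.MC.ROB
import Pool.Agent.H3.MC.ROT
import Pool.Agent.H69.MC.SMP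
import Pool.Agent.H3.MC.STP
import Pool.Agent.H65.MC.SUM
import Pool.Agent.H69.MC.TH1
import Pool.Agent.H91.MC.TH2
import Pool.Agent.H60.MC.TRI
import Pool.Agent.H33.MC.WIN
import Pool.Agent.H14.MC.WR
import Pool.Agent.H89.MC.ZER

/-!
Assembly.
-/

set_option autoImplicit false

namespace Pool.Agent.H97.MC

open Pool.Agent.H79.MC

theorem a_mxw : T_MXW := Pool.Agent.H16.MC.pf_mxw
theorem a_wr : T_WR := Pool.Agent.H14.MC.pf_wr
theorem a_fr : T_FR := Pool.Agent.H14.MC.pf_fr a_wr a_mxw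
theorem a_sum : T_SUM := Pool.Agent.H65.MC.pf_sum a_fr a_mxw
theorem a_evl : T_EVL := Pool.Agent.H74.MC.pf_evl a_mxw
theorem a_bns : T_BNS := Pool.Agent.H56.MC.pf_bns
theorem a_cpy : T_CPY := Pool.Agent.H74.MC.pf_cpy a_fr a_mxw
theorem a_rot : T_ROT := Pool.Agent.H3.MC.pf_rot
theorem a_bd1 : T_BD1 := Pool.Agent.H56.MC.pf_bd1 a_sum a_evl a_bns
theorem a_bd2 : T_BD2 := Pool.Agent.H11.MC.pf_bd2 a_sum a_evl a_bns a_cpy a_rot
theorem a_inc : T_INC := Pool.Agent.H65.MC.pf_inc a_wr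
theorem a_bdy : T_BDY := Pool.Agent.H4.MXC.BDY.pf_bdy a_bd1 a_bd2 a_inc
theorem a_zer : T_ZER := Pool.Agent.H89.MC.pf_zer a_fr a_mxw
theorem a_inr : T_INR := Pool.Agent.H74.MC.pf_inr a_bdy a_zer a_wr
theorem a_dig : T_DIG := Pool.Agent.H91.MC.pf_dig
theorem a_stp : T_STP := Pool.Agent.H3.MC.pf_stp a_fr a_dig
theorem a_gsl : T_GSL := Pool.Agent.H33.MC.pf_gsl a_inr a_stp a_zer a_inc a_wr
theorem a_prg : T_PRG := Pool.Agent.H4.MXC.PRG.pf_prg a_gsl a_fr a_rot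
theorem a_lnk : T_LNK := Pool.Agent.H11.MC.pf_lnk
theorem a_inp : T_INP := Pool.Agent.H11.MC.pf_inp
theorem a_sgn : T_SGN := Pool.Agent.H11.MC.pf_sgn
theorem a_mcb : T_MCB := Pool.Agent.H2.MC2.pf_mcb
theorem a_mul : T_MUL := Pool.Agent.H11.MC.pf_mul a_sgn a_mcb
theorem a_god : T_GOD := Pool.Agent.H60.MC.pf_god a_lnk a_mcb Pool.Agent.H33.MC.pf_win
  Pool.Agent.H35.MC.pf_enc Pool.Agent.H69.MC.pf_smp Pool.Agent.H51.MC.pf_est a_bns a_rot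
theorem a_th1 : T_TH1 := Pool.Agent.H69.MC.pf_th1 a_prg a_god a_lnk a_inp a_mcb a_mxw
theorem a_mar : T_MAR := Pool.Agent.H34.MC.pf_mar
theorem a_ent : T_ENT := Pool.Agent.H4.MXC.pf_ent a_mar
theorem a_ort : T_ORT := Pool.Agent.H4.MXC.ORT.pf_ort a_mar
theorem a_rob : T_ROB := Pool.Agent.H19.MC.pf_rob a_ent a_ort a_mar a_mul a_sgn
theorem a_th2 : T_TH2 := Pool.Agent.H91.MC.pf_th2 a_th1 a_rob a_mcb
theorem a_av0 : T_AV0 := Pool.Agent.H18.MC.pf_av0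
theorem a_tri : T_TRI := Pool.Agent.H60.MC.pf_tri a_av0 (Pool.Agent.H18.MC.pf_av1 a_av0)
  (Pool.Agent.H33.MC.pf_av2 a_av0) Pool.Agent.H34.MC.pf_hlf a_mul

theorem all (K : ℝ) (hK : 1 ≤ K) :
    ∃ (γ : ℝ) (C : ℕ) (p : Prog), 0 < γ ∧ Solves γ C p (Cls K) :=
  th6 a_th2 a_tri a_mul a_sgn a_mcb K hK

end Pool.Agent.H97.MC
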