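import Pool.Agent.H97.MC.RB6

/-!
Near-regular graphs of large energy, or far from low rank, are robust.
-/

set_option autoImplicit false

namespace Pool.Agent.H97.MC

open Finset Pool.Agent.H79.MC Matrix
open scoped Classical

variable {n : ℕ}

/-- the adjacency matrix -/
noncomputable def adjM (G : SimpleGraph (Fin n)) : Matrix (Fin n) (Fin n) ℝ :=
  Matrix.of fun u v => if G.Adj u v then 1 else 0

theorem adjM_herm (G : SimpleGraph (Fin n)) : (adjM G).IsHermitian := by
  rw [Matrix.IsHermitian, conjTranspose_eq_transpose_of_trivial]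
  ext u v
  simp only [transpose_apply, adjM, of_apply]
  by_cases h : G.Adj u v
  · simp [h, h.symm]
  · have : ¬ G.Adj v u := fun h' => h h'.symm
    simp [h, this]

/-- the energy: sum of the absolute values of the eigenvalues of the adjacency matrix -/
noncomputable def energy (G : SimpleGraph (Fin n)) : ℝ :=
  ∑ i, |(adjM_herm G).eigenvalues i|

/-- the adjacency matrix is not close to a matrix of low rank: `‖A - L‖² ≥ ‖A‖²/K` in the Frobenius
norm for every real matrix `L` of rank at most `n/K` -/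
def FarLowRank (K : ℝ) {n : ℕ} (G : SimpleGraph (Fin n)) : Prop :=
  ∀ L : Matrix (Fin n) (Fin n) ℝ, (L.rank : ℝ) ≤ n / K →
    (∑ u, ∑ v, adjM G u v ^ 2) / K ≤ ∑ u, ∑ v, (adjM G u v - L u v) ^ 2

/-- the matrix with the eigenvectors of `A` and eigenvalues `g j` -/
noncomputable def fmat {A : Matrix (Fin n) (Fin n) ℝ} (hA : A.IsHermitian) (g : Fin n → ℝ) :
    Matrix (Fin n) (Fin n) ℝ :=
  (hA.eigenvectorUnitary : Matrix (Fin n) (Fin n) ℝ) * diagonal g *
    (hA.eigenvectorUnitary : Matrix (Fin n) (Fin n) ℝ)ᵀ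

variable {A : Matrix (Fin n) (Fin n) ℝ} (hA : A.IsHermitian)

theorem uu1 : (hA.eigenvectorUnitary : Matrix (Fin n) (Fin n) ℝ)ᵀ *
    (hA.eigenvectorUnitary : Matrix (Fin n) (Fin n) ℝ) = 1 := by
  have := Unitary.coe_star_mul_self hA.eigenvectorUnitary
  rwa [star_eq_conjTranspose, conjTranspose_eq_transpose_of_trivial] at this

theorem uu2 : (hA.eigenvectorUnitary : Matrix (Fin n) (Fin n) ℝ) *
    (hA.eigenvectorUnitary : Matrix (Fin n) (Fin n) ℝ)ᵀ = 1 := by
  exact mul_eq_one_comm.1 (uu1 hA)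

theorem fmat_eig : fmat hA hA.eigenvalues = A := by
  have h := hA.spectral_theorem
  rw [Unitary.conjStarAlgAut_apply, star_eq_conjTranspose,
    conjTranspose_eq_transpose_of_trivial] at h
  conv_rhs => rw [h]
  rfl

theorem fmat_T (g : Fin n → ℝ) : (fmat hA g)ᵀ = fmat hA g := by
  unfold fmat
  rw [transpose_mul, transpose_mul, transpose_transpose, diagonal_transpose, Matrix.mul_assoc]

theorem fmat_mul (g h : Fin n → ℝ) : fmat hA g * fmat hA h = fmat hA (fun j => g j * h j) := by
  unfold fmat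
  have : ∀ U D E : Matrix (Fin n) (Fin n) ℝ, Uᵀ * U = 1 →
      U * D * Uᵀ * (U * E * Uᵀ) = U * (D * E) * Uᵀ := by
    intro U D E hU
    calc U * D * Uᵀ * (U * E * Uᵀ) = U * D * (Uᵀ * U) * E * Uᵀ := by
          simp only [Matrix.mul_assoc]
      _ = _ := by rw [hU, Matrix.mul_one]; simp only [Matrix.mul_assoc]
  rw [this _ _ _ (uu1 hA), diagonal_mul_diagonal]

theorem fmat_trace (g : Fin n → ℝ) : (fmat hA g).trace = ∑ j, g j := by
  unfold fmat
  rw [trace_mul_comm, ← Matrix.mul_assoc, uu1, Matrix.one_mul, trace_diagonal]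

theorem fmat_inner (g h : Fin n → ℝ) :
    ∑ u, ∑ v, fmat hA g u v * fmat hA h u v = ∑ j, g j * h j := by
  have h1 : ∑ u, ∑ v, fmat hA g u v * fmat hA h u v = (fmat hA g * (fmat hA h)ᵀ).trace := by
    simp [Matrix.trace, Matrix.mul_apply]
  rw [h1, fmat_T, fmat_mul, fmat_trace]

theorem fmat_sub (g h : Fin n → ℝ) : fmat hA g - fmat hA h = fmat hA (fun j => g j - h j) := by
  unfold fmat
  rw [← Matrix.sub_mul, ← Matrix.mul_sub, diagonal_sub]

theorem fmat_contr (g : Fin n → ℝ) (hg : ∀ j, |g j| ≤ 1) : Contr (fun u v => fmat hA g u v) := by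
  intro z
  have h1 : ∑ u, (∑ v, fmat hA g u v * z v) ^ 2 =
      (fmat hA g *ᵥ z) ⬝ᵥ (fmat hA g *ᵥ z) := by
    simp [dotProduct, mulVec, sq]
  set w := (hA.eigenvectorUnitary : Matrix (Fin n) (Fin n) ℝ)ᵀ *ᵥ z with hw
  have h2 : ∑ v, z v ^ 2 = w ⬝ᵥ w := by
    rw [hw, dotProduct_mulVec, vecMul_transpose, mulVec_mulVec, uu2, one_mulVec]
    simp [dotProduct, sq]
  have h3 : (fmat hA g *ᵥ z) ⬝ᵥ (fmat hA g *ᵥ z) = ∑ j, (g j * w j) ^ 2 := by
    have e : fmat hA g *ᵥ z = (hA.eigenvectorUnitary : Matrix (Fin n) (Fin n) ℝ) *ᵥ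
        (fun j => g j * w j) := by
      unfold fmat
      rw [← mulVec_mulVec, ← mulVec_mulVec, ← hw]
      congr 1
      ext j
      rw [mulVec_diagonal]
    rw [e, dotProduct_mulVec, ← mulVec_transpose, mulVec_mulVec, uu1, one_mulVec]
    simp [dotProduct, sq]
  rw [h1, h2, h3]
  have h4 : w ⬝ᵥ w = ∑ j, w j ^ 2 := by simp [dotProduct, sq]
  rw [h4]
  refine Finset.sum_le_sum fun j _ => ?_
  rw [mul_pow]
  have h5 : g j ^ 2 ≤ 1 := by
    rw [← sq_abs]
    have := hg j
    have h6 := abs_nonneg (g j)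
    nlinarith
  exact mul_le_of_le_one_left (sq_nonneg _) h5

theorem fmat_rank (g : Fin n → ℝ) :
    (fmat hA g).rank ≤ (univ.filter fun j => g j ≠ 0).card := by
  unfold fmat
  refine (rank_mul_le_left _ _).trans ((rank_mul_le_right _ _).trans ?_)
  rw [rank_diagonal, Fintype.card_subtype]

/-- ENG: near-regular graphs of large energy are robust -/
theorem eng_robust (hMUL : T_MUL) (hSGN : T_SGN) (K : ℝ) (hK : 1 ≤ K) (n : ℕ)
    (G : SimpleGraph (Fin n)) (hE : 1 ≤ edges G) (hR : NearRegular K G)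
    (h : Real.sqrt (2 * edges G * n) / K ≤ energy G) : Robust (kap K) n G := by
  set hA := adjM_herm G
  refine contr_robust hMUL hSGN K hK n G hE hR
    (fun u v => fmat hA (fun j => SignType.sign (hA.eigenvalues j)) u v)
    (fmat_contr hA _ fun j => ?_) (h.trans (le_of_eq ?_))
  · rcases lt_trichotomy (hA.eigenvalues j) 0 with h | h | h
    · simp [sign_neg h]
    · simp [h]
    · simp [sign_pos h]
  · have h1 := fmat_inner hA hA.eigenvalues (fun j => (SignType.sign (hA.eigenvalues j) : ℝ))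
    rw [fmat_eig] at h1
    have h2 : energy G = ∑ j, hA.eigenvalues j * (SignType.sign (hA.eigenvalues j) : ℝ) := by
      refine Finset.sum_congr rfl fun j _ => ?_
      rw [mul_comm]
      exact (sign_mul_self _).symm
    rw [h2, ← h1]
    refine Finset.sum_congr rfl fun u _ => Finset.sum_congr rfl fun v _ => ?_
    by_cases huv : G.Adj u v
    · simp [adjM, huv]
    · simp [adjM, huv]

/-- FAR: near-regular graphs far from low rank are robust -/
theorem far_robust (hMUL : T_MUL) (hSGN : T_SGN) (K : ℝ) (hK : 1 ≤ K) (n : ℕ)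
    (G : SimpleGraph (Fin n)) (hE : 1 ≤ edges G) (hR : NearRegular K G)
    (h : FarLowRank K G) : Robust (kap (K ^ 2)) n G := by
  set hA := adjM_herm G
  have hK0 : 0 < K := by linarith
  have hKK : K ≤ K ^ 2 := by nlinarith
  set m : ℝ := (edges G : ℝ) with hm
  have hm1 : 1 ≤ m := by rw [hm]; exact_mod_cast hE
  have hsA : ∑ u, ∑ v, adjM G u v ^ 2 = 2 * m := by
    rw [← sum_adj hSGN G]
    refine Finset.sum_congr rfl fun u _ => Finset.sum_congr rfl fun v _ => ?_
    by_cases huv : G.Adj u v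
    · simp [adjM, huv]
    · simp [adjM, huv]
  have hn1 : (1 : ℝ) ≤ n := by
    rcases Nat.eq_zero_or_pos n with h0 | h0
    · subst h0
      simp at hsA
      linarith
    · exact_mod_cast h0
  have hsl : ∑ j, hA.eigenvalues j * hA.eigenvalues j = 2 * m := by
    have h1 := fmat_inner hA hA.eigenvalues hA.eigenvalues
    rw [fmat_eig] at h1
    rw [← h1, ← hsA]
    exact Finset.sum_congr rfl fun u _ => Finset.sum_congr rfl fun v _ => by ring
  set T : ℝ := Real.sqrt (2 * m * K / n) with hT
  have hT0 : 0 < T := Real.sqrt_pos.2 (by positivity)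
  have hT2 : T ^ 2 = 2 * m * K / n := Real.sq_sqrt (by positivity)
  set g : Fin n → ℝ := fun j => if |hA.eigenvalues j| ≤ T then hA.eigenvalues j / T else 0 with hg
  set l : Fin n → ℝ := fun j => if |hA.eigenvalues j| ≤ T then 0 else hA.eigenvalues j with hl
  have hrank : ((fmat hA l).rank : ℝ) ≤ n / K := by
    have h1 := fmat_rank hA l
    have h2 : T ^ 2 * ((univ.filter fun j => l j ≠ 0).card : ℝ) ≤ 2 * m := by
      rw [← hsl]
      calc _ = ∑ _j ∈ univ.filter (fun j => l j ≠ 0), T ^ 2 := by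
            rw [Finset.sum_const, nsmul_eq_mul, mul_comm]
        _ ≤ ∑ j ∈ univ.filter (fun j => l j ≠ 0), hA.eigenvalues j * hA.eigenvalues j := by
            refine Finset.sum_le_sum fun j hj => ?_
            rw [Finset.mem_filter] at hj
            have h3 : ¬ |hA.eigenvalues j| ≤ T := by
              intro h3
              exact hj.2 (by rw [hl]; simp [h3])
            rw [not_le] at h3
            have h4 : hA.eigenvalues j * hA.eigenvalues j = |hA.eigenvalues j| ^ 2 := by
              rw [sq_abs, sq]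
            rw [h4]
            exact pow_le_pow_left₀ hT0.le h3.le 2
        _ ≤ _ := Finset.sum_le_sum_of_subset_of_nonneg (Finset.filter_subset _ _)
            fun j _ _ => mul_self_nonneg _
    rw [hT2] at h2
    have h3 : ((fmat hA l).rank : ℝ) ≤ ((univ.filter fun j => l j ≠ 0).card : ℝ) := by
      exact_mod_cast h1
    rw [le_div_iff₀ hK0]
    have h4 : 2 * m * K / n * ((univ.filter fun j => l j ≠ 0).card : ℝ) ≤ 2 * m := h2
    have h5 : 2 * m * (K * ((univ.filter fun j => l j ≠ 0).card : ℝ)) ≤ 2 * m * n := by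
      have e : 2 * m * K / n * ((univ.filter fun j => l j ≠ 0).card : ℝ) * n =
          2 * m * (K * ((univ.filter fun j => l j ≠ 0).card : ℝ)) := by
        field_simp
      rw [← e]
      exact mul_le_mul_of_nonneg_right h4 (by positivity)
    have h6 : K * ((univ.filter fun j => l j ≠ 0).card : ℝ) ≤ n :=
      le_of_mul_le_mul_left h5 (by positivity)
    nlinarith
  have h1 := h (fmat hA l) hrank
  rw [hsA] at h1
  have h2 : ∑ u, ∑ v, (adjM G u v - fmat hA l u v) ^ 2 =
      ∑ j, (hA.eigenvalues j - l j) * (hA.eigenvalues j - l j) := by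
    rw [← fmat_inner hA, ← fmat_sub, fmat_eig]
    refine Finset.sum_congr rfl fun u _ => Finset.sum_congr rfl fun v _ => ?_
    simp only [Matrix.sub_apply]
    ring
  rw [h2] at h1
  have h3 : ∑ j, hA.eigenvalues j * g j =
      (∑ j, (hA.eigenvalues j - l j) * (hA.eigenvalues j - l j)) / T := by
    rw [Finset.sum_div]
    refine Finset.sum_congr rfl fun j _ => ?_
    rw [hg, hl]
    by_cases hj : |hA.eigenvalues j| ≤ T
    · simp only [hj, if_true]
      ring
    · simp only [hj, if_false]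
      ring
  refine contr_robust hMUL hSGN (K ^ 2) (by nlinarith) n G hE (fun v => ?_)
    (fun u v => fmat hA g u v) (fmat_contr hA g fun j => ?_) ?_
  · refine (hR v).trans ?_
    exact mul_le_mul_of_nonneg_right hKK (by positivity)
  · rw [hg]
    by_cases hj : |hA.eigenvalues j| ≤ T
    · simp only [hj, if_true]
      rw [abs_div, abs_of_pos hT0]
      exact (div_le_one hT0).2 hj
    · simp only [hj, if_false]
      norm_num
  · have h4 : ∑ u, ∑ v, (if G.Adj u v then fmat hA g u v else 0) =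
        ∑ j, hA.eigenvalues j * g j := by
      rw [← fmat_inner hA, fmat_eig]
      refine Finset.sum_congr rfl fun u _ => Finset.sum_congr rfl fun v _ => ?_
      by_cases huv : G.Adj u v
      · simp [adjM, huv]
      · simp [adjM, huv]
    rw [h4, h3]
    have h5 : 2 * m / K / T ≤
        (∑ j, (hA.eigenvalues j - l j) * (hA.eigenvalues j - l j)) / T :=
      div_le_div_of_nonneg_right h1 hT0.le
    refine le_trans ?_ h5
    rw [div_div, div_le_div_iff₀ (by positivity) (by positivity)]
    have h6 : (Real.sqrt (2 * m * n) * (K * T)) ^ 2 ≤ (2 * m * K ^ 2) ^ 2 := by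
      rw [mul_pow, mul_pow, Real.sq_sqrt (by positivity), hT2]
      have e : 2 * m * (n : ℝ) * (K ^ 2 * (2 * m * K / n)) = (2 * m) ^ 2 * K ^ 3 := by
        field_simp
      rw [e]
      have e2 : (2 * m * K ^ 2) ^ 2 = (2 * m) ^ 2 * K ^ 4 := by ring
      rw [e2]
      refine mul_le_mul_of_nonneg_left ?_ (sq_nonneg _)
      exact pow_le_pow_right₀ hK (by norm_num)
    exact abs_le_of_sq_le_sq' h6 (by positivity) |>.2

end Pool.Agent.H97.MC
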