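import Pool.Agent.H79.MC.Targets2

/-!
Perturbation of a fractional point by a cut of the part where it is small; graphs with hereditary
surplus are robust.
-/

set_option autoImplicit false

namespace Pool.Agent.H97.MC

open Finset Pool.Agent.H79.MC
open scoped Classical

variable {n : ℕ}

/-- the edges of `G` inside `S` -/
def inside (G : SimpleGraph (Fin n)) (S : Set (Fin n)) : SimpleGraph (Fin n) where
  Adj u v := G.Adj u v ∧ u ∈ S ∧ v ∈ S
  symm := ⟨fun _ _ h => ⟨h.1.symm, h.2.2, h.2.1⟩⟩
  loopless := ⟨fun _ h => G.loopless.irrefl _ h.1⟩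

/-- hereditary surplus: the subgraph induced on any `S` with at least `(1 - 1/K) n` vertices has a
cut with at least `e(S)/2 + √(m n)/K` edges -/
def HerSurplus (K : ℝ) (n : ℕ) (G : SimpleGraph (Fin n)) : Prop :=
  ∀ S : Set (Fin n), (1 - 1 / K) * n ≤ S.ncard →
    (edges (inside G S) : ℝ) / 2 + Real.sqrt (edges G * n) / K ≤ maxCut (inside G S)

theorem phi_pert (G : SimpleGraph (Fin n)) (z y : Fin n → ℝ) :
    phi G (fun v => z v + y v / 2) + phi G (fun v => z v - y v / 2) =
      2 * phi G z + phi G y / 2 := by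
  unfold phi
  rw [← Finset.sum_add_distrib, Finset.mul_sum, Finset.sum_div, ← Finset.sum_add_distrib]
  refine Finset.sum_congr rfl fun u _ => ?_
  rw [← Finset.sum_add_distrib, Finset.mul_sum, Finset.sum_div, ← Finset.sum_add_distrib]
  refine Finset.sum_congr rfl fun v _ => ?_
  split_ifs <;> ring

theorem robust_step (hMUL : T_MUL) (G : SimpleGraph (Fin n)) (z y : Fin n → ℝ) (σ : ℝ)
    (hz : ∀ v, |z v| ≤ 1) (hy : ∀ v, |y v| ≤ 1) (hs : ∀ v, 1 / 2 < |z v| → y v = 0)
    (hphi : phi G y ≤ -σ) :
    2 * (edges G : ℝ) - 4 * maxCut G + σ / 4 ≤ phi G z := by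
  have h1 := hMUL n G (fun v => z v + y v / 2) (fun v => by
    rcases lt_or_ge (1 / 2) |z v| with h | h
    · simp only [hs v h, zero_div, add_zero]
      exact hz v
    · have h2 := abs_le.1 h
      have h3 := abs_le.1 (hy v)
      exact abs_le.2 ⟨by linarith [h2.1, h3.1], by linarith [h2.2, h3.2]⟩)
  have h2 := hMUL n G (fun v => z v - y v / 2) (fun v => by
    rcases lt_or_ge (1 / 2) |z v| with h | h
    · simp only [hs v h, zero_div, sub_zero]
      exact hz v
    · have h2 := abs_le.1 h
      have h3 := abs_le.1 (hy v)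
      exact abs_le.2 ⟨by linarith [h2.1, h3.2], by linarith [h2.2, h3.1]⟩)
  have h3 := phi_pert G z y
  linarith

theorem card_big (z : Fin n → ℝ) (κ : ℝ) (hz : ∑ v, z v ^ 2 ≤ κ * n) :
    ((univ.filter fun v => 1 / 2 < |z v|).card : ℝ) ≤ 4 * κ * n := by
  have h1 : ∑ v ∈ univ.filter (fun v => 1 / 2 < |z v|), (1 / 4 : ℝ) ≤ ∑ v, z v ^ 2 := by
    refine le_trans ?_ (Finset.sum_le_sum_of_subset_of_nonneg (Finset.filter_subset (fun v => 1 / 2 < |z v|) univ)
      fun _ _ _ => sq_nonneg _)
    refine Finset.sum_le_sum fun v hv => ?_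
    rw [Finset.mem_filter] at hv
    have := hv.2
    rw [← sq_abs (z v)]
    nlinarith
  rw [Finset.sum_const, nsmul_eq_mul] at h1
  linarith

/-- HSR: hereditary surplus implies robustness -/
theorem her_robust (hMUL : T_MUL) (hSGN : T_SGN) (hMCB : T_MCB) (K : ℝ) (hK : 1 ≤ K) (n : ℕ)
    (G : SimpleGraph (Fin n)) (h : HerSurplus K n G) : Robust (1 / (4 * K)) n G := by
  intro z hz1 hz2
  set S : Set (Fin n) := {v | ¬ 1 / 2 < |z v|} with hS
  have hc := card_big z _ hz2
  have hcard : (S.ncard : ℝ) + ((univ.filter fun v => 1 / 2 < |z v|).card : ℝ) = n := by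
    have h1 : S.ncard = (univ.filter fun v => ¬ 1 / 2 < |z v|).card := by
      rw [hS, ← Set.ncard_coe_finset]
      congr 1
      ext v
      simp
    have h2 := Finset.card_filter_add_card_filter_not (s := (univ : Finset (Fin n)))
      (fun v => 1 / 2 < |z v|)
    rw [Finset.card_univ, Fintype.card_fin] at h2
    rw [h1]
    exact_mod_cast (by omega)
  have hS1 : (1 - 1 / K) * n ≤ S.ncard := by
    have e : 4 * (1 / (4 * K)) * (n : ℝ) = 1 / K * n := by
      field_simp
    rw [e] at hc
    linarith
  have h1 := h S hS1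
  obtain ⟨X, hX⟩ := (hMCB n (inside G S)).2.1
  have h2 := hSGN n (inside G S) X
  have h3 : phi G (fun v => if v ∈ S then sgv X v else 0) = phi (inside G S) (sgv X) := by
    unfold phi
    refine Finset.sum_congr rfl fun u _ => Finset.sum_congr rfl fun v _ => ?_
    by_cases hG : G.Adj u v
    · by_cases hu : u ∈ S
      · by_cases hv : v ∈ S
        · simp [inside, hG, hu, hv]
        · simp [inside, hG, hu, hv]
      · simp [inside, hG, hu]
    · simp [inside, hG]
  have h4 := robust_step hMUL G z (fun v => if v ∈ S then sgv X v else 0)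
    (4 * (Real.sqrt (edges G * n) / K)) hz1 (fun v => by
      show |if v ∈ S then sgv X v else 0| ≤ 1
      by_cases hv : v ∈ S
      · rw [if_pos hv]
        unfold sgv
        split_ifs <;> norm_num
      · rw [if_neg hv]
        norm_num) (fun v hv => by
      have : v ∉ S := by
        rw [hS]
        simpa using hv
      simp [this]) (by
      rw [h3, h2, hX]
      linarith)
  have h5 : 1 / (4 * K) * Real.sqrt (edges G * n) ≤ Real.sqrt (edges G * n) / K := by
    have hs := Real.sqrt_nonneg ((edges G : ℝ) * n)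
    have : 1 / (4 * K) ≤ 1 / K := by
      apply one_div_le_one_div_of_le <;> linarith
    calc _ ≤ 1 / K * Real.sqrt (edges G * n) := mul_le_mul_of_nonneg_right this hs
      _ = _ := by ring
  linarith

end Pool.Agent.H97.MC
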