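import Pool.Agent.H97.MC.SIN
import Pool.Agent.H97.MC.HSR

/-!
Near-regular graphs with a contraction that correlates with the adjacency matrix are robust.
-/

set_option autoImplicit false

namespace Pool.Agent.H97.MC

open Finset Pool.Agent.H79.MC
open scoped Classical

variable {n : ℕ}

/-- contractions of `ℝ^n` -/
def Contr (M : Fin n → Fin n → ℝ) : Prop :=
  ∀ z : Fin n → ℝ, ∑ u, (∑ v, M u v * z v) ^ 2 ≤ ∑ v, z v ^ 2

theorem Contr.col {M : Fin n → Fin n → ℝ} (h : Contr M) (v : Fin n) : ∑ u, M u v ^ 2 ≤ 1 := by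
  have := h (Pi.single v 1)
  simpa [Pi.single_apply, Finset.sum_ite_eq'] using this

theorem Contr.row {M : Fin n → Fin n → ℝ} (h : Contr M) (u : Fin n) : ∑ v, M u v ^ 2 ≤ 1 := by
  have h1 := h (M u)
  have h2 : (∑ v, M u v * M u v) ^ 2 ≤ ∑ u', (∑ v, M u' v * M u v) ^ 2 :=
    Finset.single_le_sum (f := fun u' => (∑ v, M u' v * M u v) ^ 2)
      (fun _ _ => sq_nonneg _) (Finset.mem_univ u)
  have h3 : ∑ v, M u v * M u v = ∑ v, M u v ^ 2 :=
    Finset.sum_congr rfl fun v _ => by ring
  rw [h3] at h2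
  have h4 : 0 ≤ ∑ v, M u v ^ 2 := Finset.sum_nonneg fun _ _ => sq_nonneg _
  by_contra h5
  rw [not_le] at h5
  nlinarith [h2.trans h1]

/-- the Gram matrix of the rows -/
noncomputable def gram (M : Fin n → Fin n → ℝ) (u v : Fin n) : ℝ := ∑ k, M u k * M v k

theorem Contr.gram_sq {M : Fin n → Fin n → ℝ} (h : Contr M) :
    ∑ u, ∑ v, gram M u v ^ 2 ≤ n := by
  rw [Finset.sum_comm]
  calc _ ≤ ∑ _v : Fin n, (1 : ℝ) := Finset.sum_le_sum fun v _ => (h (M v)).trans (h.row v)
    _ = n := by simp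

theorem Contr.entry {M : Fin n → Fin n → ℝ} (h : Contr M) (u v : Fin n) : |M u v| ≤ 1 := by
  have h1 : M u v ^ 2 ≤ ∑ v', M u v' ^ 2 :=
    Finset.single_le_sum (f := fun v' => M u v' ^ 2) (fun _ _ => sq_nonneg _)
      (Finset.mem_univ v)
  have h2 := h1.trans (h.row u)
  exact abs_le_one_iff_mul_self_le_one.2 (by nlinarith)

theorem Contr.gram_entry {M : Fin n → Fin n → ℝ} (h : Contr M) (u v : Fin n) :
    |gram M u v| ≤ 1 := by
  have h1 : gram M u v ^ 2 ≤ (∑ k, M u k ^ 2) * ∑ k, M v k ^ 2 :=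
    Finset.sum_mul_sq_le_sq_mul_sq _ _ _
  have h2 : (∑ k, M u k ^ 2) * ∑ k, M v k ^ 2 ≤ 1 * 1 :=
    mul_le_mul (h.row u) (h.row v) (Finset.sum_nonneg fun _ _ => sq_nonneg _) zero_le_one
  exact abs_le_one_iff_mul_self_le_one.2 (by nlinarith)

theorem Contr.sum_sq {M : Fin n → Fin n → ℝ} (h : Contr M) : ∑ u, ∑ v, M u v ^ 2 ≤ n := by
  calc _ ≤ ∑ _u : Fin n, (1 : ℝ) := Finset.sum_le_sum fun u _ => h.row u
    _ = n := by simp

theorem sinh_le {x : ℝ} (hx : |x| ≤ 1) : Real.sinh x ≤ x + x ^ 2 / 2 := by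
  have h1 := (abs_le.1 (Real.abs_exp_sub_one_sub_id_le hx)).2
  have h2 := Real.add_one_le_exp (-x)
  rw [Real.sinh_eq]
  linarith

/-- the number of ordered adjacent pairs -/
theorem sum_adj (hSGN : T_SGN) (G : SimpleGraph (Fin n)) :
    ∑ u, ∑ v, (if G.Adj u v then (1 : ℝ) else 0) = 2 * edges G := by
  have h := hSGN n G Set.univ
  have h1 : cutSize G (Set.univ : Set (Fin n)) = 0 := by
    unfold cutSize
    rw [Set.ncard_eq_zero]
    ext e
    simp
  rw [h1] at h
  rw [← sub_zero (2 * (edges G : ℝ))]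
  have h2 : phi G (sgv Set.univ) = ∑ u, ∑ v, (if G.Adj u v then (1 : ℝ) else 0) := by
    unfold phi sgv
    simp
  rw [h2] at h
  simpa using h

/-- the constant -/
noncomputable def kap (K : ℝ) : ℝ :=
  min (1 / (32 * K ^ 2)) (Real.exp (-4) * (1 / (11 * K ^ 2)) / (4 * K))

theorem kap_pos {K : ℝ} (hK : 1 ≤ K) : 0 < kap K := by
  unfold kap
  have := Real.exp_pos (-4)
  have : 0 < K := by linarith
  refine lt_min (by positivity) (by positivity)

theorem contr_robust (hMUL : T_MUL) (hSGN : T_SGN) (K : ℝ) (hK : 1 ≤ K) (n : ℕ)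
    (G : SimpleGraph (Fin n)) (hE : 1 ≤ edges G) (hR : NearRegular K G)
    (M : Fin n → Fin n → ℝ) (hC : Contr M)
    (hM : Real.sqrt (2 * edges G * n) / K ≤ ∑ u, ∑ v, if G.Adj u v then M u v else 0) :
    Robust (kap K) n G := by
  intro z hz1 hz2
  have hK0 : 0 < K := by linarith
  have hKK : K ≤ K ^ 2 := by nlinarith
  set m : ℝ := (edges G : ℝ) with hm
  have hm1 : 1 ≤ m := by rw [hm]; exact_mod_cast hE
  set D : ℝ := Real.sqrt (2 * m * n) with hD
  have hD0 : 0 ≤ D := Real.sqrt_nonneg _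
  have hD2 : D ^ 2 = 2 * m * n := Real.sq_sqrt (by positivity)
  set A : Fin n → Fin n → ℝ := fun u v => if G.Adj u v then 1 else 0 with hA
  have hA01 : ∀ u v, 0 ≤ A u v ∧ A u v ^ 2 = A u v ∧ A u v ≤ 1 := by
    intro u v
    rw [hA]
    by_cases h : G.Adj u v <;> simp [h]
  have hAs : ∀ u v, A u v = A v u := by
    intro u v
    rw [hA]
    by_cases h : G.Adj u v
    · simp [h, h.symm]
    · have : ¬ G.Adj v u := fun h' => h h'.symm
      simp [h, this]
  have hsA : ∑ u, ∑ v, A u v = 2 * m := sum_adj hSGN G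
  have hdeg : ∀ u, ∑ v, A u v = degr G u := by
    intro u
    rw [hA, degr]
    simp
  -- a vertex of positive degree
  obtain ⟨u₀, hu₀⟩ : ∃ u, 0 < ∑ v, A u v := by
    by_contra h
    push Not at h
    have : ∑ u, ∑ v, A u v ≤ 0 := Finset.sum_nonpos fun u _ => h u
    linarith
  have hn1 : (1 : ℝ) ≤ n := by
    have : 0 < n := Fin.pos u₀
    exact_mod_cast this
  have hnD : (n : ℝ) ≤ K * D := by
    have h1 := hR u₀
    have h2 : (1 : ℝ) ≤ degr G u₀ := by
      rw [hdeg] at hu₀
      have : 0 < degr G u₀ := by exact_mod_cast hu₀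
      exact_mod_cast this
    have h3 : (n : ℝ) ≤ K * (2 * m) := by nlinarith
    have h4 : (n : ℝ) ^ 2 ≤ (K * D) ^ 2 := by
      rw [mul_pow, hD2]
      have i1 := mul_le_mul_of_nonneg_right h3 (by positivity : (0 : ℝ) ≤ n)
      have i2 := mul_le_mul_of_nonneg_right hKK (by positivity : (0 : ℝ) ≤ 2 * m * n)
      linarith
    exact abs_le_of_sq_le_sq' h4 (by positivity) |>.2
  have hrow : ∀ u, ∑ v, A u v * |M u v| ≤ K * D / n := by
    intro u
    have h1 : (∑ v, A u v * |M u v|) ^ 2 ≤ (∑ v, A u v ^ 2) * ∑ v, |M u v| ^ 2 :=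
      Finset.sum_mul_sq_le_sq_mul_sq _ _ _
    have h2 : ∑ v, A u v ^ 2 = degr G u := by
      rw [← hdeg]
      exact Finset.sum_congr rfl fun v _ => (hA01 u v).2.1
    have h3 : ∑ v, |M u v| ^ 2 ≤ 1 := by
      simp only [sq_abs]
      exact hC.row u
    have h4 : (∑ v, A u v * |M u v|) ^ 2 ≤ (K * D / n) ^ 2 := by
      rw [h2] at h1
      have h5 := hR u
      rw [div_pow, mul_pow, hD2, le_div_iff₀ (by positivity)]
      have h6 : (degr G u : ℝ) * ∑ v, |M u v| ^ 2 ≤ degr G u :=
        mul_le_of_le_one_right (Nat.cast_nonneg _) h3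
      have h7 : (degr G u : ℝ) * n ^ 2 ≤ K ^ 2 * (2 * m * n) := by
        have i1 := mul_le_mul_of_nonneg_right h5 (by positivity : (0 : ℝ) ≤ n)
        have i2 := mul_le_mul_of_nonneg_right hKK (by positivity : (0 : ℝ) ≤ 2 * m * n)
        rw [← hm] at i1
        linarith
      nlinarith [sq_nonneg (n : ℝ)]
    exact abs_le_of_sq_le_sq' h4 (by positivity) |>.2
  have hcol : ∀ v, ∑ u, A u v * |M u v| ≤ K * D / n := by
    intro v
    have h1 : (∑ u, A u v * |M u v|) ^ 2 ≤ (∑ u, A u v ^ 2) * ∑ u, |M u v| ^ 2 :=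
      Finset.sum_mul_sq_le_sq_mul_sq _ _ _
    have h2 : ∑ u, A u v ^ 2 = degr G v := by
      rw [← hdeg]
      exact Finset.sum_congr rfl fun u _ => by rw [(hA01 u v).2.1, hAs]
    have h3 : ∑ u, |M u v| ^ 2 ≤ 1 := by
      simp only [sq_abs]
      exact hC.col v
    have h4 : (∑ u, A u v * |M u v|) ^ 2 ≤ (K * D / n) ^ 2 := by
      rw [h2] at h1
      have h5 := hR v
      rw [div_pow, mul_pow, hD2, le_div_iff₀ (by positivity)]
      have h6 : (degr G v : ℝ) * ∑ u, |M u v| ^ 2 ≤ degr G v :=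
        mul_le_of_le_one_right (Nat.cast_nonneg _) h3
      have h7 : (degr G v : ℝ) * n ^ 2 ≤ K ^ 2 * (2 * m * n) := by
        have i1 := mul_le_mul_of_nonneg_right h5 (by positivity : (0 : ℝ) ≤ n)
        have i2 := mul_le_mul_of_nonneg_right hKK (by positivity : (0 : ℝ) ≤ 2 * m * n)
        rw [← hm] at i1
        linarith
      nlinarith [sq_nonneg (n : ℝ)]
    exact abs_le_of_sq_le_sq' h4 (by positivity) |>.2
  set Z : Finset (Fin n) := univ.filter fun v => 1 / 2 < |z v| with hZ
  have hZc : (Z.card : ℝ) ≤ 4 * kap K * n := card_big z _ hz2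
  set a : Fin n → Fin n → ℝ := fun u v => if u ∈ Z ∨ v ∈ Z then 0 else A u v with ha
  have has : ∀ u v, a u v = a v u := by
    intro u v
    rw [ha]
    simp only [or_comm (a := u ∈ Z), hAs u v]
  have ha0 : ∀ u v, 0 ≤ a u v ∧ a u v ≤ A u v := by
    intro u v
    rw [ha]
    simp only
    split_ifs
    · exact ⟨le_rfl, (hA01 u v).1⟩
    · exact ⟨(hA01 u v).1, le_rfl⟩
  -- correlation inside
  have hin : D / K - 8 * kap K * (K * D) ≤ ∑ u, ∑ v, a u v * M u v := by
    have h1 : ∑ u, ∑ v, (A u v - a u v) * M u v ≤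
        ∑ u ∈ Z, ∑ v, A u v * |M u v| + ∑ v ∈ Z, ∑ u, A u v * |M u v| := by
      have h2 : ∀ u v, (A u v - a u v) * M u v ≤
          (if u ∈ Z then A u v * |M u v| else 0) + (if v ∈ Z then A u v * |M u v| else 0) := by
        intro u v
        have h3 : A u v * M u v ≤ A u v * |M u v| :=
          mul_le_mul_of_nonneg_left (le_abs_self _) (hA01 u v).1
        have h4 : 0 ≤ A u v * |M u v| := mul_nonneg (hA01 u v).1 (abs_nonneg _)
        rw [ha]
        by_cases hu : u ∈ Z <;> by_cases hv : v ∈ Z <;> simp [hu, hv] <;> linarith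
      calc _ ≤ ∑ u, ∑ v, ((if u ∈ Z then A u v * |M u v| else 0) +
            (if v ∈ Z then A u v * |M u v| else 0)) :=
            Finset.sum_le_sum fun u _ => Finset.sum_le_sum fun v _ => h2 u v
        _ = _ := by
          simp_rw [Finset.sum_add_distrib]
          congr 1
          · rw [← Finset.sum_filter_add_sum_filter_not univ (fun u => u ∈ Z)]
            have e1 : ∑ u ∈ univ.filter (fun u => ¬ u ∈ Z),
                ∑ v, (if u ∈ Z then A u v * |M u v| else 0) = 0 := by
              refine Finset.sum_eq_zero fun u hu => ?_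
              rw [Finset.mem_filter] at hu
              simp [hu.2]
            rw [e1, add_zero]
            have e2 : univ.filter (fun u => u ∈ Z) = Z := by
              ext u
              simp
            rw [e2]
            exact Finset.sum_congr rfl fun u hu => by simp [hu]
          · rw [Finset.sum_comm, ← Finset.sum_filter_add_sum_filter_not univ (fun v => v ∈ Z)]
            have e1 : ∑ v ∈ univ.filter (fun v => ¬ v ∈ Z),
                ∑ u, (if v ∈ Z then A u v * |M u v| else 0) = 0 := by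
              refine Finset.sum_eq_zero fun v hv => ?_
              rw [Finset.mem_filter] at hv
              simp [hv.2]
            rw [e1, add_zero]
            have e2 : univ.filter (fun v => v ∈ Z) = Z := by
              ext v
              simp
            rw [e2]
            exact Finset.sum_congr rfl fun v hv => by simp [hv]
    have h5 : ∑ u ∈ Z, ∑ v, A u v * |M u v| ≤ Z.card * (K * D / n) := by
      rw [← nsmul_eq_mul]
      exact Finset.sum_le_card_nsmul _ _ _ fun u _ => hrow u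
    have h6 : ∑ v ∈ Z, ∑ u, A u v * |M u v| ≤ Z.card * (K * D / n) := by
      rw [← nsmul_eq_mul]
      exact Finset.sum_le_card_nsmul _ _ _ fun u _ => hcol u
    have h7 : (Z.card : ℝ) * (K * D / n) ≤ 4 * kap K * (K * D) := by
      have h8 : 0 ≤ K * D / n := by positivity
      calc _ ≤ 4 * kap K * n * (K * D / n) := mul_le_mul_of_nonneg_right hZc h8
        _ = _ := by field_simp
    have h9 : ∑ u, ∑ v, (A u v - a u v) * M u v =
        ∑ u, ∑ v, A u v * M u v - ∑ u, ∑ v, a u v * M u v := by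
      rw [← Finset.sum_sub_distrib]
      refine Finset.sum_congr rfl fun u _ => ?_
      rw [← Finset.sum_sub_distrib]
      exact Finset.sum_congr rfl fun v _ => by ring
    have h10 : ∑ u, ∑ v, A u v * M u v = ∑ u, ∑ v, if G.Adj u v then M u v else 0 := by
      refine Finset.sum_congr rfl fun u _ => Finset.sum_congr rfl fun v _ => ?_
      rw [hA]
      by_cases h : G.Adj u v <;> simp [h]
    rw [h9, h10] at h1
    linarith
  set γ : ℝ := 1 / (11 * K ^ 2) with hγ
  have hγ0 : 0 < γ := by rw [hγ]; positivity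
  have hγ1 : γ * K ^ 2 = 1 / 11 := by
    rw [hγ]
    field_simp
  have hγ2 : γ ≤ 1 / 11 := by nlinarith
  set x : Fin n → Fin n → ℝ := fun u v => -γ * (M u v + M v u) + γ ^ 2 * gram M u v with hx
  have hx1 : ∀ u v, |x u v| ≤ 1 := by
    intro u v
    have h1 := abs_le.1 (hC.entry u v)
    have h2 := abs_le.1 (hC.entry v u)
    have h3 := abs_le.1 (hC.gram_entry u v)
    rw [hx, abs_le]
    have h4 : γ ^ 2 ≤ 1 := by nlinarith
    constructor <;> nlinarith
  obtain ⟨y, hy1, hy2⟩ := sin_point n a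
    (fun u k => (if u = k then 1 else 0) - γ * M u k) 4 (fun u => by
      have e : ∑ k, ((if u = k then (1 : ℝ) else 0) - γ * M u k) ^ 2 =
          1 - 2 * γ * M u u + γ ^ 2 * ∑ k, M u k ^ 2 := by
        have : ∀ k, ((if u = k then (1 : ℝ) else 0) - γ * M u k) ^ 2 =
            (if u = k then (1 - 2 * γ * M u k) else 0) + γ ^ 2 * M u k ^ 2 := by
          intro k
          split_ifs <;> ring
        simp_rw [this]
        rw [Finset.sum_add_distrib, ← Finset.mul_sum]
        simp
      rw [e]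
      have h1 := (abs_le.1 (hC.entry u u)).1
      have h2 := hC.row u
      have h3 : γ ^ 2 ≤ 1 := by nlinarith
      have h4 : γ ^ 2 * ∑ k, M u k ^ 2 ≤ 1 * 1 := by
        refine mul_le_mul h3 h2 (Finset.sum_nonneg fun _ _ => sq_nonneg _) zero_le_one
      nlinarith)
  -- the bound of the sum
  have hsum : ∑ u, ∑ v, a u v * Real.sinh (∑ k, ((if u = k then (1 : ℝ) else 0) - γ * M u k) *
      ((if v = k then (1 : ℝ) else 0) - γ * M v k)) ≤ -(γ * D / K) := by
    have h1 : ∀ u v, a u v * Real.sinh (∑ k, ((if u = k then (1 : ℝ) else 0) - γ * M u k) *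
        ((if v = k then (1 : ℝ) else 0) - γ * M v k)) ≤ a u v * x u v + 1 / 2 * x u v ^ 2 := by
      intro u v
      by_cases h : a u v = 0
      · rw [h, zero_mul, zero_mul, zero_add]
        positivity
      have huv : u ≠ v := by
        rintro rfl
        apply h
        rw [ha]
        simp [hA]
      have e : ∑ k, ((if u = k then (1 : ℝ) else 0) - γ * M u k) *
          ((if v = k then (1 : ℝ) else 0) - γ * M v k) = x u v := by
        have : ∀ k, ((if u = k then (1 : ℝ) else 0) - γ * M u k) *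
            ((if v = k then (1 : ℝ) else 0) - γ * M v k) =
            (if u = k then -γ * M v k else 0) + (if v = k then -γ * M u k else 0) +
              γ ^ 2 * (M u k * M v k) := by
          intro k
          by_cases h1 : u = k
          · by_cases h2 : v = k
            · exact absurd (h1.trans h2.symm) huv
            · simp [h1, h2]
              ring
          · by_cases h2 : v = k
            · simp [h1, h2]
              ring
            · simp [h1, h2]
              ring
        simp_rw [this]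
        rw [Finset.sum_add_distrib, Finset.sum_add_distrib, ← Finset.mul_sum]
        simp only [Finset.sum_ite_eq, Finset.mem_univ, if_true]
        rw [hx]
        simp only [gram]
        ring
      rw [e]
      have h2 := sinh_le (hx1 u v)
      have h3 : a u v ≤ 1 := (ha0 u v).2.trans (hA01 u v).2.2
      have h4 : a u v * Real.sinh (x u v) ≤ a u v * (x u v + x u v ^ 2 / 2) :=
        mul_le_mul_of_nonneg_left h2 (ha0 u v).1
      have h5 : a u v * (x u v ^ 2 / 2) ≤ 1 * (x u v ^ 2 / 2) :=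
        mul_le_mul_of_nonneg_right h3 (by positivity)
      nlinarith
    have h2 : ∑ u, ∑ v, (a u v * x u v + 1 / 2 * x u v ^ 2) =
        ∑ u, ∑ v, a u v * x u v + 1 / 2 * ∑ u, ∑ v, x u v ^ 2 := by
      rw [Finset.mul_sum, ← Finset.sum_add_distrib]
      refine Finset.sum_congr rfl fun u _ => ?_
      rw [Finset.mul_sum, ← Finset.sum_add_distrib]
    have h3 : ∑ u, ∑ v, a u v * x u v =
        -(2 * γ) * ∑ u, ∑ v, a u v * M u v + γ ^ 2 * ∑ u, ∑ v, a u v * gram M u v := by
      have e1 : ∑ u, ∑ v, a u v * M v u = ∑ u, ∑ v, a u v * M u v := by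
        rw [Finset.sum_comm]
        exact Finset.sum_congr rfl fun u _ => Finset.sum_congr rfl fun v _ => by rw [has]
      have e2 : ∑ u, ∑ v, a u v * x u v = -γ * ∑ u, ∑ v, a u v * M u v +
          -γ * ∑ u, ∑ v, a u v * M v u + γ ^ 2 * ∑ u, ∑ v, a u v * gram M u v := by
        rw [Finset.mul_sum, Finset.mul_sum, Finset.mul_sum, ← Finset.sum_add_distrib,
          ← Finset.sum_add_distrib]
        refine Finset.sum_congr rfl fun u _ => ?_
        rw [Finset.mul_sum, Finset.mul_sum, Finset.mul_sum, ← Finset.sum_add_distrib,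
          ← Finset.sum_add_distrib]
        refine Finset.sum_congr rfl fun v _ => ?_
        rw [hx]
        ring
      rw [e2, e1]
      ring
    have h4 : ∑ u, ∑ v, a u v * gram M u v ≤ D := by
      have e1 : (∑ p : Fin n × Fin n, a p.1 p.2 * gram M p.1 p.2) ^ 2 ≤
          (∑ p : Fin n × Fin n, a p.1 p.2 ^ 2) * ∑ p : Fin n × Fin n, gram M p.1 p.2 ^ 2 :=
        Finset.sum_mul_sq_le_sq_mul_sq _ _ _
      rw [Fintype.sum_prod_type, Fintype.sum_prod_type, Fintype.sum_prod_type] at e1
      simp only at e1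
      have e2 : ∑ u, ∑ v, a u v ^ 2 ≤ 2 * m := by
        rw [← hsA]
        refine Finset.sum_le_sum fun u _ => Finset.sum_le_sum fun v _ => ?_
        have := ha0 u v
        have h8 := (hA01 u v)
        nlinarith
      have e3 := hC.gram_sq
      have e4 : (∑ u, ∑ v, a u v * gram M u v) ^ 2 ≤ D ^ 2 := by
        rw [hD2]
        refine e1.trans (mul_le_mul e2 e3 (Finset.sum_nonneg fun _ _ =>
          Finset.sum_nonneg fun _ _ => sq_nonneg _) (by positivity))
      exact abs_le_of_sq_le_sq' e4 hD0 |>.2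
    have h5 : ∑ u, ∑ v, x u v ^ 2 ≤ 9 * γ ^ 2 * n := by
      have e1 : ∀ u v, x u v ^ 2 ≤ 3 * γ ^ 2 * M u v ^ 2 + 3 * γ ^ 2 * M v u ^ 2 +
          3 * γ ^ 2 * gram M u v ^ 2 := by
        intro u v
        have h8 : γ ^ 2 ≤ 1 := by nlinarith
        have h9 : x u v ^ 2 ≤ 3 * (γ * M u v) ^ 2 + 3 * (γ * M v u) ^ 2 +
            3 * (γ ^ 2 * gram M u v) ^ 2 := by
          rw [hx]
          simp only
          nlinarith [sq_nonneg (γ * M u v - γ * M v u),
            sq_nonneg (γ * M u v + γ ^ 2 * gram M u v),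
            sq_nonneg (γ * M v u + γ ^ 2 * gram M u v)]
        have h10 : (γ ^ 2 * gram M u v) ^ 2 ≤ γ ^ 2 * gram M u v ^ 2 := by
          have : (γ ^ 2 * gram M u v) ^ 2 = γ ^ 2 * (γ ^ 2 * gram M u v ^ 2) := by ring
          rw [this]
          exact mul_le_mul_of_nonneg_left (mul_le_of_le_one_left (sq_nonneg _) h8)
            (sq_nonneg _)
        nlinarith
      have e2 : ∑ u, ∑ v, M v u ^ 2 = ∑ u, ∑ v, M u v ^ 2 := Finset.sum_comm
      calc _ ≤ ∑ u, ∑ v, (3 * γ ^ 2 * M u v ^ 2 + 3 * γ ^ 2 * M v u ^ 2 +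
            3 * γ ^ 2 * gram M u v ^ 2) :=
            Finset.sum_le_sum fun u _ => Finset.sum_le_sum fun v _ => e1 u v
        _ = 3 * γ ^ 2 * ∑ u, ∑ v, M u v ^ 2 + 3 * γ ^ 2 * ∑ u, ∑ v, M v u ^ 2 +
            3 * γ ^ 2 * ∑ u, ∑ v, gram M u v ^ 2 := by
          rw [Finset.mul_sum, Finset.mul_sum, Finset.mul_sum, ← Finset.sum_add_distrib,
            ← Finset.sum_add_distrib]
          refine Finset.sum_congr rfl fun u _ => ?_
          rw [Finset.mul_sum, Finset.mul_sum, Finset.mul_sum, ← Finset.sum_add_distrib,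
            ← Finset.sum_add_distrib]
        _ ≤ _ := by
          rw [e2]
          have h8 := hC.sum_sq
          have h9 := hC.gram_sq
          nlinarith [sq_nonneg γ]
    have h6 : kap K ≤ 1 / (32 * K ^ 2) := min_le_left _ _
    have h7 : 16 * kap K * K ≤ 1 / (2 * K) := by
      calc _ ≤ 16 * (1 / (32 * K ^ 2)) * K := by
            refine mul_le_mul_of_nonneg_right (mul_le_mul_of_nonneg_left h6 (by norm_num)) hK0.le
        _ = _ := by field_simp; norm_num
    have h8 : 11 / 2 * γ * K = 1 / (2 * K) := by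
      rw [hγ]
      field_simp
    have h9 : γ + 9 / 2 * γ * K ≤ 1 / (2 * K) := by
      rw [← h8]
      nlinarith
    calc _ ≤ ∑ u, ∑ v, (a u v * x u v + 1 / 2 * x u v ^ 2) :=
          Finset.sum_le_sum fun u _ => Finset.sum_le_sum fun v _ => h1 u v
      _ = -(2 * γ) * ∑ u, ∑ v, a u v * M u v + γ ^ 2 * ∑ u, ∑ v, a u v * gram M u v +
          1 / 2 * ∑ u, ∑ v, x u v ^ 2 := by rw [h2, h3]
      _ ≤ -(2 * γ) * (D / K - 8 * kap K * (K * D)) + γ ^ 2 * D +
          1 / 2 * (9 * γ ^ 2 * (K * D)) := by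
        have i1 : -(2 * γ) * ∑ u, ∑ v, a u v * M u v ≤
            -(2 * γ) * (D / K - 8 * kap K * (K * D)) :=
          mul_le_mul_of_nonpos_left hin (by linarith)
        have i2 : γ ^ 2 * ∑ u, ∑ v, a u v * gram M u v ≤ γ ^ 2 * D :=
          mul_le_mul_of_nonneg_left h4 (sq_nonneg _)
        have i3 : 9 * γ ^ 2 * (n : ℝ) ≤ 9 * γ ^ 2 * (K * D) :=
          mul_le_mul_of_nonneg_left hnD (by positivity)
        linarith
      _ = -(γ * D / K) - γ * D * (1 / K - 16 * kap K * K - (γ + 9 / 2 * γ * K)) := by ring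
      _ ≤ -(γ * D / K) := by
        have : 1 / K = 1 / (2 * K) + 1 / (2 * K) := by field_simp; norm_num
        have i1 : 0 ≤ 1 / K - 16 * kap K * K - (γ + 9 / 2 * γ * K) := by linarith
        have i2 : 0 ≤ γ * D := by positivity
        nlinarith [mul_nonneg i2 i1]
  -- conclusion
  have hfin := robust_step hMUL G z (fun v => if v ∈ Z then 0 else y v)
    (Real.exp (-4) * (γ * D / K)) hz1 (fun v => by
      show |if v ∈ Z then 0 else y v| ≤ 1
      by_cases hv : v ∈ Z
      · rw [if_pos hv]; norm_num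
      · rw [if_neg hv]; exact hy1 v) (fun v hv => by
      have : v ∈ Z := by
        rw [hZ, Finset.mem_filter]
        exact ⟨Finset.mem_univ _, hv⟩
      simp [this]) (by
      have e : phi G (fun v => if v ∈ Z then 0 else y v) =
          ∑ u, ∑ v, a u v * (y u * y v) := by
        unfold phi
        refine Finset.sum_congr rfl fun u _ => Finset.sum_congr rfl fun v _ => ?_
        rw [ha, hA]
        by_cases hu : u ∈ Z
        · simp [hu]
        · by_cases hv : v ∈ Z
          · simp [hv]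
          · simp [hu, hv]
      rw [e]
      refine hy2.trans ?_
      have := mul_le_mul_of_nonneg_left hsum (Real.exp_pos (-4)).le
      linarith)
  have h1 : kap K * Real.sqrt (m * n) ≤ Real.exp (-4) * (γ * D / K) / 4 := by
    have i1 : kap K ≤ Real.exp (-4) * (1 / (11 * K ^ 2)) / (4 * K) := min_le_right _ _
    have i2 : Real.sqrt (m * n) ≤ D := by
      rw [hD]
      apply Real.sqrt_le_sqrt
      nlinarith
    calc _ ≤ Real.exp (-4) * (1 / (11 * K ^ 2)) / (4 * K) * D :=
          mul_le_mul i1 i2 (Real.sqrt_nonneg _) (by positivity)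
      _ = _ := by
        rw [hγ]
        field_simp
  linarith

end Pool.Agent.H97.MC
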