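import Mathlib

/-!
Random fractional points `y u = sin (L g) u` with `g` Gaussian: the mean of a quadratic form
without diagonal terms.
-/

set_option autoImplicit false

namespace Pool.Agent.H97.MC

open MeasureTheory ProbabilityTheory Finset

/-- standard Gaussian measure -/
noncomputable def gam (n : ℕ) : Measure (Fin n → ℝ) := Measure.pi fun _ => gaussianReal 0 1

instance (n : ℕ) : IsProbabilityMeasure (gam n) := by unfold gam; infer_instance

theorem int_cexp (n : ℕ) (c : Fin n → ℝ) :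
    ∫ g, Complex.exp (((∑ k, c k * g k : ℝ) : ℂ) * Complex.I) ∂gam n =
      ((Real.exp (-(∑ k, c k ^ 2) / 2) : ℝ) : ℂ) := by
  have h1 : ∀ g : Fin n → ℝ, Complex.exp (((∑ k, c k * g k : ℝ) : ℂ) * Complex.I) =
      ∏ k, Complex.exp ((c k : ℂ) * (g k : ℂ) * Complex.I) := by
    intro g
    rw [← Complex.exp_sum]
    congr 1
    push_cast
    rw [Finset.sum_mul]
  simp_rw [h1]
  unfold gam
  rw [integral_fintype_prod_eq_prod (𝕜 := ℂ)
    (f := fun k (x : ℝ) => Complex.exp ((c k : ℂ) * (x : ℂ) * Complex.I))]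
  have h2 : ∀ k, ∫ x : ℝ, Complex.exp ((c k : ℂ) * (x : ℂ) * Complex.I) ∂gaussianReal 0 1 =
      Complex.exp (-(c k : ℂ) ^ 2 / 2) := by
    intro k
    rw [← charFun_apply_real, charFun_gaussianReal]
    congr 1
    push_cast
    ring
  simp_rw [h2]
  rw [← Complex.exp_sum]
  push_cast
  congr 1
  rw [← Finset.sum_neg_distrib, Finset.sum_div]

theorem int_cos (n : ℕ) (c : Fin n → ℝ) :
    Integrable (fun g : Fin n → ℝ => Real.cos (∑ k, c k * g k)) (gam n) ∧
    ∫ g, Real.cos (∑ k, c k * g k) ∂gam n = Real.exp (-(∑ k, c k ^ 2) / 2) := by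
  have hm : Continuous fun g : Fin n → ℝ =>
      Complex.exp (((∑ k, c k * g k : ℝ) : ℂ) * Complex.I) := by
    fun_prop
  have hi : Integrable (fun g : Fin n → ℝ =>
      Complex.exp (((∑ k, c k * g k : ℝ) : ℂ) * Complex.I)) (gam n) := by
    refine Integrable.of_bound hm.aestronglyMeasurable 1 (Filter.Eventually.of_forall fun g => ?_)
    rw [Complex.norm_exp_ofReal_mul_I]
  have hc : ∀ g : Fin n → ℝ, Real.cos (∑ k, c k * g k) =
      RCLike.re (Complex.exp (((∑ k, c k * g k : ℝ) : ℂ) * Complex.I)) := by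
    intro g
    rw [RCLike.re_eq_complex_re, Complex.exp_ofReal_mul_I_re]
  simp_rw [hc]
  refine ⟨hi.re, ?_⟩
  rw [integral_re hi, int_cexp, RCLike.re_eq_complex_re, Complex.ofReal_re]

/-- the random fractional point -/
theorem int_sin (n : ℕ) (a b : Fin n → ℝ) :
    Integrable (fun g : Fin n → ℝ => Real.sin (∑ k, a k * g k) * Real.sin (∑ k, b k * g k))
      (gam n) ∧
    ∫ g, Real.sin (∑ k, a k * g k) * Real.sin (∑ k, b k * g k) ∂gam n =
      Real.exp (-(∑ k, a k ^ 2) / 2) * Real.exp (-(∑ k, b k ^ 2) / 2) *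
        Real.sinh (∑ k, a k * b k) := by
  have h : ∀ g : Fin n → ℝ, Real.sin (∑ k, a k * g k) * Real.sin (∑ k, b k * g k) =
      1 / 2 * (Real.cos (∑ k, (a k - b k) * g k) - Real.cos (∑ k, (a k + b k) * g k)) := by
    intro g
    have e1 : ∑ k, (a k - b k) * g k = ∑ k, a k * g k - ∑ k, b k * g k := by
      rw [← Finset.sum_sub_distrib]
      exact Finset.sum_congr rfl fun k _ => by ring
    have e2 : ∑ k, (a k + b k) * g k = ∑ k, a k * g k + ∑ k, b k * g k := by
      rw [← Finset.sum_add_distrib]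
      exact Finset.sum_congr rfl fun k _ => by ring
    rw [e1, e2, Real.cos_sub, Real.cos_add]
    ring
  simp_rw [h]
  have i1 := int_cos n (fun k => a k - b k)
  have i2 := int_cos n (fun k => a k + b k)
  refine ⟨(i1.1.sub i2.1).const_mul _, ?_⟩
  rw [integral_const_mul, integral_sub i1.1 i2.1, i1.2, i2.2]
  have s1 : ∑ k, (a k - b k) ^ 2 = ∑ k, a k ^ 2 + ∑ k, b k ^ 2 - 2 * ∑ k, a k * b k := by
    rw [Finset.mul_sum, ← Finset.sum_add_distrib, ← Finset.sum_sub_distrib]
    exact Finset.sum_congr rfl fun k _ => by ring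
  have s2 : ∑ k, (a k + b k) ^ 2 = ∑ k, a k ^ 2 + ∑ k, b k ^ 2 + 2 * ∑ k, a k * b k := by
    rw [Finset.mul_sum, ← Finset.sum_add_distrib, ← Finset.sum_add_distrib]
    exact Finset.sum_congr rfl fun k _ => by ring
  rw [s1, s2, Real.sinh_eq, ← Real.exp_add]
  have t1 : -(∑ k, a k ^ 2 + ∑ k, b k ^ 2 - 2 * ∑ k, a k * b k) / 2 =
      (-(∑ k, a k ^ 2) / 2 + -(∑ k, b k ^ 2) / 2) + ∑ k, a k * b k := by ring
  have t2 : -(∑ k, a k ^ 2 + ∑ k, b k ^ 2 + 2 * ∑ k, a k * b k) / 2 =
      (-(∑ k, a k ^ 2) / 2 + -(∑ k, b k ^ 2) / 2) + -(∑ k, a k * b k) := by ring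
  rw [t1, t2, Real.exp_add (_ + _) (∑ k, a k * b k), Real.exp_add (_ + _) (-∑ k, a k * b k)]
  ring

/-- a fractional point from a Gaussian vector -/
theorem sin_point (n : ℕ) (a : Fin n → Fin n → ℝ) (L : Fin n → Fin n → ℝ) (R : ℝ)
    (hR : ∀ u, ∑ k, L u k ^ 2 ≤ R) :
    ∃ y : Fin n → ℝ, (∀ u, |y u| ≤ 1) ∧ ∑ u, ∑ v, a u v * (y u * y v) ≤
      Real.exp (-R) * ∑ u, ∑ v, a u v * Real.sinh (∑ k, L u k * L v k) := by
  set w : Fin n → ℝ := fun u => Real.exp ((∑ k, L u k ^ 2 - R) / 2) with hw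
  have hw1 : ∀ u, 0 < w u ∧ w u ≤ 1 := fun u =>
    ⟨Real.exp_pos _, Real.exp_le_one_iff.2 (by linarith [hR u])⟩
  set y : (Fin n → ℝ) → Fin n → ℝ := fun g u => w u * Real.sin (∑ k, L u k * g k) with hy
  have hyb : ∀ g u, |y g u| ≤ 1 := by
    intro g u
    rw [hy, abs_mul, abs_of_pos (hw1 u).1]
    have := Real.abs_sin_le_one (∑ k, L u k * g k)
    exact (mul_le_mul (hw1 u).2 this (abs_nonneg _) zero_le_one).trans (by norm_num)
  have hint : ∀ u v, Integrable (fun g => a u v * (y g u * y g v)) (gam n) ∧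
      ∫ g, a u v * (y g u * y g v) ∂gam n =
        Real.exp (-R) * (a u v * Real.sinh (∑ k, L u k * L v k)) := by
    intro u v
    have h := int_sin n (L u) (L v)
    have e : ∀ g, a u v * (y g u * y g v) = a u v * w u * w v *
        (Real.sin (∑ k, L u k * g k) * Real.sin (∑ k, L v k * g k)) := by
      intro g
      rw [hy]
      ring
    simp_rw [e]
    refine ⟨h.1.const_mul _, ?_⟩
    rw [integral_const_mul, h.2]
    have e2 : w u * w v * (Real.exp (-(∑ k, L u k ^ 2) / 2) * Real.exp (-(∑ k, L v k ^ 2) / 2)) =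
        Real.exp (-R) := by
      rw [hw]
      simp only
      rw [← Real.exp_add, ← Real.exp_add, ← Real.exp_add]
      congr 1
      ring
    rw [← e2]
    ring
  have hI : Integrable (fun g => ∑ u, ∑ v, a u v * (y g u * y g v)) (gam n) :=
    integrable_finsetSum _ fun u _ => integrable_finsetSum _ fun v _ => (hint u v).1
  obtain ⟨g, hg⟩ := exists_le_integral hI
  refine ⟨y g, hyb g, hg.trans (le_of_eq ?_)⟩
  rw [integral_finsetSum _ fun u _ => integrable_finsetSum _ fun v _ => (hint u v).1,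
    Finset.mul_sum]
  refine Finset.sum_congr rfl fun u _ => ?_
  rw [integral_finsetSum _ fun v _ => (hint u v).1, Finset.mul_sum]
  exact Finset.sum_congr rfl fun v _ => (hint u v).2

end Pool.Agent.H97.MC
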