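import Pool.Agent.H97.MC.ENG

/-!
The class of the theorem consists of robust graphs.
-/

set_option autoImplicit false

namespace Pool.Agent.H97.MC

open Finset Pool.Agent.H79.MC
open scoped Classical

variable {n : ℕ}

/-- the class: hereditary surplus, or near-regular and (few triangles, or large energy, or far from
low rank) -/
def Cls (K : ℝ) (n : ℕ) (G : SimpleGraph (Fin n)) : Prop :=
  HerSurplus K n G ∨ (NearRegular K G ∧
    ((triangles G : ℝ) ≤ K * n * (2 * edges G / n) ^ ((3 : ℝ) / 2) ∨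
      Real.sqrt (2 * edges G * n) / K ≤ energy G ∨ FarLowRank K G))

theorem robust_anti {κ κ' : ℝ} {G : SimpleGraph (Fin n)} (h : Robust κ n G) (hk : κ' ≤ κ) :
    Robust κ' n G := by
  intro z hz1 hz2
  have h1 := h z hz1 (hz2.trans (mul_le_mul_of_nonneg_right hk (Nat.cast_nonneg _)))
  have h2 := mul_le_mul_of_nonneg_right hk (Real.sqrt_nonneg ((edges G : ℝ) * n))
  linarith

theorem robust_empty (hSGN : T_SGN) (hMCB : T_MCB) (κ : ℝ) (G : SimpleGraph (Fin n))
    (hE : edges G = 0) : Robust κ n G := by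
  have h0 : G.edgeSet = ∅ := (Set.ncard_eq_zero (Set.toFinite _)).1 hE
  have h1 : ∀ u v, ¬ G.Adj u v := by
    intro u v h
    have : s(u, v) ∈ G.edgeSet := h
    rw [h0] at this
    exact this
  have h2 : ∀ z, phi G z = 0 := by
    intro z
    unfold phi
    exact Finset.sum_eq_zero fun u _ => Finset.sum_eq_zero fun v _ => by simp [h1 u v]
  obtain ⟨X, hX⟩ := (hMCB n G).2.1
  have h3 := hSGN n G X
  rw [h2, hX, hE] at h3
  intro z _ _
  rw [h2, hE]
  simp only [Nat.cast_zero, mul_zero, zero_mul, Real.sqrt_zero] at h3 ⊢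
  linarith

theorem cls_robust (hTRI : T_TRI) (hMUL : T_MUL) (hSGN : T_SGN) (hMCB : T_MCB) (K : ℝ)
    (hK : 1 ≤ K) : ∃ κ : ℝ, 0 < κ ∧ ∀ (n : ℕ) (G : SimpleGraph (Fin n)), Cls K n G →
      Robust κ n G := by
  obtain ⟨κ, hκ, hT⟩ := hTRI K hK
  have hK0 : 0 < K := by linarith
  have hK2 : 1 ≤ K ^ 2 := by nlinarith
  have k1 := kap_pos hK
  have k2 := kap_pos hK2
  refine ⟨min (min κ (1 / (4 * K))) (min (kap K) (kap (K ^ 2))),
    lt_min (lt_min hκ (by positivity)) (lt_min k1 k2), fun n G h => ?_⟩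
  rcases h with h | ⟨hR, h⟩
  · exact robust_anti (her_robust hMUL hSGN hMCB K hK n G h) ((min_le_left _ _).trans (min_le_right _ _))
  · rcases Nat.eq_zero_or_pos (edges G) with hE | hE
    · exact robust_empty hSGN hMCB _ G hE
    · rcases h with h | h | h
      · exact robust_anti (hT n G hE hR h) ((min_le_left _ _).trans (min_le_left _ _))
      · exact robust_anti (eng_robust hMUL hSGN K hK n G hE hR h)
          ((min_le_right _ _).trans (min_le_left _ _))
      · exact robust_anti (far_robust hMUL hSGN K hK n G hE hR h)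
          ((min_le_right _ _).trans (min_le_right _ _))

/-- the algorithm for the class -/
theorem th6 (hTH2 : T_TH2) (hTRI : T_TRI) (hMUL : T_MUL) (hSGN : T_SGN) (hMCB : T_MCB) (K : ℝ)
    (hK : 1 ≤ K) : ∃ (γ : ℝ) (C : ℕ) (p : Prog), 0 < γ ∧ Solves γ C p (Cls K) := by
  obtain ⟨κ, hκ, hC⟩ := cls_robust hTRI hMUL hSGN hMCB K hK
  obtain ⟨γ, C, p, hγ, h⟩ := hTH2 κ hκ
  refine ⟨γ, C, p, hγ, fun n G => ?_⟩
  obtain ⟨t, s, h1, h2, h3⟩ := h n G
  exact ⟨t, s, h1, h2, fun h4 => h3 (hC n G h4)⟩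

end Pool.Agent.H97.MC
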